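import Pool.Agent.Lib.MP_3b7d13_co.TrMain

/-! Two-sided variational bounds for the parity-restricted constants at every radius; they
coincide at transcendental radii and at the radii where the variational value has no jump. -/

namespace Pool.Agent.Results.MP_3b7d13_co.AllRadii

open Pool.Agent.Lib.MP_3b7d13_co Filter Topology

theorem result : ∀ d : ℕ, 2 ≤ d → ∀ p : ℕ, ∃ r₀ ∈ Set.Icc √((d : ℝ) - 1) √(d : ℝ),
    ∀ s r : ℝ, s < r ∨ (s = r ∧ Transcendental ℚ r ∧ (p % 2 = d % 2 ∨ d = 2 ∨ r ≠ r₀)) →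
      Gam d p s ≤ liminf (fun n : ℕ => ENNReal.ofReal ((n : ℝ) ^ ((d : ℝ) / 2) * F d r n))
          (atTop ⊓ principal {n | n % 2 = p % 2}) ∧
        limsup (fun n : ℕ => ENNReal.ofReal ((n : ℝ) ^ ((d : ℝ) / 2) * F d r n))
          (atTop ⊓ principal {n | n % 2 = p % 2}) ≤ Gam d p r := by
  intro d hd p
  obtain ⟨r₀, h0, h⟩ := Tr.tendsto_tr hd p
  refine ⟨r₀, h0, fun s r hsr => ⟨?_, Var.upper d p r⟩⟩
  rcases hsr with hsr | ⟨rfl, h1, h2⟩
  · exact Var.lower hd p hsr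
  · have := Var.neBot_parity p
    exact (h s h1 h2).liminf_eq.ge

end Pool.Agent.Results.MP_3b7d13_co.AllRadii
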