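import Pool.Agent.Lib.MP_3b7d13_co.Asym
import Pool.Agent.Lib.MP_3b7d13_co.Three
import Pool.Agent.Lib.MP_3b7d13_co.Roots

/-! The exact values of both constants for `√d ≤ r < 2`. -/

namespace Pool.Agent.Results.MP_3b7d13_co.BelowTwo

open Pool.Agent.Lib.MP_3b7d13_co Filter Real Topology

lemma sqrt_pow_eq {x : ℝ} (hx : 0 ≤ x) (d : ℕ) : √x ^ d = x ^ ((d : ℝ) / 2) := by
  rw [sqrt_eq_rpow, ← rpow_natCast, ← rpow_mul hx]
  congr 1; ring

lemma lower2 {r : ℝ} (hr : √(2 : ℕ) ≤ r) (l : Filter ℕ) (hl : l ≤ atTop) :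
    ENNReal.ofReal (2 * √3 / π) ≤
      liminf (fun n : ℕ => ENNReal.ofReal ((n : ℝ) ^ (((2 : ℕ) : ℝ) / 2) * F 2 r n)) l := by
  have h := liminf_lower (d := 2) (by norm_num) (by norm_num) hyp_two hr l hl
  convert h using 2
  have h3 : √(2 / 3 / (Nat.factorial 2 : ℕ) : ℝ) = √3 / 3 := by
    rw [sqrt_eq_iff_mul_self_eq_of_pos (by positivity)]
    have := mul_self_sqrt (by norm_num : (0 : ℝ) ≤ 3)
    norm_num [Nat.factorial]
    linarith
  rw [h3, sq_sqrt (by positivity)]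
  have := mul_self_sqrt (by norm_num : (0 : ℝ) ≤ 3)
  have : (0 : ℝ) < √3 := by positivity
  field_simp
  linarith

lemma upper2 {r : ℝ} (hr : r < 2) (P : Set ℕ) (c : ℕ) (hP : ∀ k, k % 2 = c % 2 → k + (k + k) ∈ P) :
    liminf (fun n : ℕ => ENNReal.ofReal ((n : ℝ) ^ (((2 : ℕ) : ℝ) / 2) * F 2 r n))
      (atTop ⊓ principal P) ≤ ENNReal.ofReal (2 * √3 / π) := by
  refine le_of_forall_gt_imp_ge_of_dense fun x hx => ?_
  have h1 := ((ENNReal.continuous_ofReal.tendsto _).comp hex_tendsto).eventually (gt_mem_nhds hx)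
  obtain ⟨k0, hk0⟩ := eventually_atTop.1 h1
  refine liminf_le_of_frequently_le ?_ (by isBoundedDefault)
  rw [frequently_inf_principal, frequently_atTop]
  intro n0
  obtain ⟨k, hk⟩ : ∃ k, k = 2 * (n0 + k0 + 1) + c := ⟨_, rfl⟩
  refine ⟨k + (k + k), by omega, hP k (by omega), le_trans (ENNReal.ofReal_le_ofReal ?_)
    (hk0 k (by omega)).le⟩
  have e : ((2 : ℕ) : ℝ) / 2 = 1 := by norm_num
  rw [e, rpow_one]
  refine le_trans (mul_le_mul_of_nonneg_left ?_ (Nat.cast_nonneg _)) (hex_prob k (by omega) hr)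
  exact ciInf_le (f := fun V : Fin (k + (k + k)) →
      Metric.sphere (0 : EuclideanSpace ℝ (Fin 2)) 1 => prob (fun i => (V i).1) r)
    ⟨0, by rintro _ ⟨V, rfl⟩; unfold prob; positivity⟩
    (fun i => ⟨hexv k ((blk k k k).symm i), mem_sphere_zero_iff_norm.2 (hexv_norm _ _)⟩)

lemma lower3 {r : ℝ} (hr : √(3 : ℕ) ≤ r) (l : Filter ℕ) (hl : l ≤ atTop) :
    ENNReal.ofReal (2 * √(3 / π) ^ 3) ≤
      liminf (fun n : ℕ => ENNReal.ofReal ((n : ℝ) ^ (((3 : ℕ) : ℝ) / 2) * F 3 r n)) l := by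
  have h := liminf_lower (d := 3) (by norm_num) (by norm_num) hyp_three hr l hl
  convert h using 2
  have h1 : √(3 / π) = √(2 / π) * √(3 / 2) := by
    rw [← sqrt_mul (by positivity)]; congr 1; field_simp
  have h2 : √(3 / 2 : ℝ) ^ 2 = 3 / 2 := sq_sqrt (by norm_num)
  have h3 : √(4 / 9 / (Nat.factorial 3 : ℕ) : ℝ) = 1 / (2 * √(3 / 2) ^ 3) := by
    rw [sqrt_eq_iff_mul_self_eq_of_pos (by positivity), div_mul_div_comm,
      show 2 * √(3 / 2 : ℝ) ^ 3 * (2 * √(3 / 2) ^ 3) = 4 * (√(3 / 2) ^ 2) ^ 3 by ring, h2]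
    norm_num [Nat.factorial]
  rw [h1, h3, one_div, div_inv_eq_mul]; ring

lemma upper3 {r : ℝ} (hr : r < 2) (P : Set ℕ) (c : ℕ) (hc : c ≤ 1) (hP : ∀ l, 12 * l + 3 * c ∈ P) :
    liminf (fun n : ℕ => ENNReal.ofReal ((n : ℝ) ^ (((3 : ℕ) : ℝ) / 2) * F 3 r n))
      (atTop ⊓ principal P) ≤ ENNReal.ofReal (2 * √(3 / π) ^ 3) := by
  refine le_of_forall_gt_imp_ge_of_dense fun x hx => ?_
  have h1 := ((ENNReal.continuous_ofReal.tendsto _).comp rt_tendsto).eventually (gt_mem_nhds hx)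
  obtain ⟨k0, hk0⟩ := eventually_atTop.1 h1
  refine liminf_le_of_frequently_le ?_ (by isBoundedDefault)
  rw [frequently_inf_principal, frequently_atTop]
  intro n0
  obtain ⟨l, hl⟩ : ∃ l, l = n0 + k0 + 1 := ⟨_, rfl⟩
  have e : ∑ m, rK l c m = 12 * l + 3 * c := by
    simp only [Fin.sum_univ_six, rK, Matrix.cons_val]; ring
  refine ⟨12 * l + 3 * c, by omega, hP l, le_trans (ENNReal.ofReal_le_ofReal ?_)
    (hk0 l (by omega)).le⟩
  rw [rpow_half, ← e]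
  exact rt_F l c (by omega) hc hr rfl

theorem result : ∀ (d : ℕ) (r : ℝ), 2 ≤ d → √d ≤ r → r < 2 →
    f0 d r = ENNReal.ofReal (√(d + 1) * (d / π) ^ ((d : ℝ) / 2)) ∧
    f1 d r = ENNReal.ofReal (√(d + 1) * (d / π) ^ ((d : ℝ) / 2)) := by
  intro d r hd h1 h2
  have h3 : d < 4 := by
    have := (sqrt_lt' two_pos).1 (h1.trans_lt h2)
    exact_mod_cast this.trans_eq (by norm_num : (2 : ℝ) ^ 2 = (4 : ℕ))
  interval_cases d
  · have e : √(((2 : ℕ) : ℝ) + 1) * (((2 : ℕ) : ℝ) / π) ^ (((2 : ℕ) : ℝ) / 2) = 2 * √3 / π := by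
      norm_num; ring
    rw [e]
    exact ⟨le_antisymm (upper2 h2 _ 0 fun k hk => by
        change _ % 2 = 2 % 2
        omega) (lower2 h1 _ inf_le_left),
      le_antisymm (upper2 h2 _ 1 fun k hk => by
        change _ % 2 ≠ 2 % 2
        omega) (lower2 h1 _ inf_le_left)⟩
  · have e : √(((3 : ℕ) : ℝ) + 1) * (((3 : ℕ) : ℝ) / π) ^ (((3 : ℕ) : ℝ) / 2) =
        2 * √(3 / π) ^ 3 := by
      rw [← sqrt_pow_eq (by positivity), show ((3 : ℕ) : ℝ) + 1 = 2 ^ 2 by norm_num,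
        sqrt_sq (by norm_num), Nat.cast_ofNat]
    rw [e]
    exact ⟨le_antisymm (upper3 h2 _ 1 le_rfl fun k => by
        change _ % 2 = 3 % 2
        omega) (lower3 h1 _ inf_le_left),
      le_antisymm (upper3 h2 _ 0 (by norm_num) fun k => by
        change _ % 2 ≠ 3 % 2
        omega) (lower3 h1 _ inf_le_left)⟩

end Pool.Agent.Results.MP_3b7d13_co.BelowTwo
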