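import Pool.Agent.Lib.MP_3b7d13_co.Asym2
import Pool.Agent.Lib.MP_3b7d13_co.Orth2

/-! Two-sided bounds for both constants at every radius `r ≥ √d`, sharp as `r → ∞`. -/

namespace Pool.Agent.Results.MP_3b7d13_co.LargeRadius

open Pool.Agent.Lib.MP_3b7d13_co Filter Real Topology MeasureTheory

lemma sqrt_pow_eq {x : ℝ} (hx : 0 ≤ x) (d : ℕ) : √x ^ d = x ^ ((d : ℝ) / 2) := by
  rw [sqrt_eq_rpow, ← rpow_natCast, ← rpow_mul hx]
  congr 1; ring

lemma vol_eq {d : ℕ} (hd : 1 ≤ d) {ρ : ℝ} (hρ : 0 ≤ ρ) :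
    (volume (Metric.closedBall (0 : EuclideanSpace ℝ (Fin d)) ρ)).toReal =
      ρ ^ d * (√π ^ d / Gamma (d / 2 + 1)) := by
  have : Nonempty (Fin d) := ⟨⟨0, hd⟩⟩
  have : 0 < Gamma ((d : ℝ) / 2 + 1) := Gamma_pos_of_pos (by positivity)
  rw [EuclideanSpace.volume_closedBall, Fintype.card_fin, ENNReal.toReal_mul, ENNReal.toReal_pow,
    ENNReal.toReal_ofReal hρ, ENNReal.toReal_ofReal (by positivity)]

lemma lower {d : ℕ} (hd : 1 ≤ d) {r : ℝ} (hr : √d ≤ r) (l : Filter ℕ) (hl : l ≤ atTop) :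
    ENNReal.ofReal (((d : ℝ) / 2) ^ ((d : ℝ) / 2) * (r - √d) ^ d / Gamma (d / 2 + 1)) ≤
      liminf (fun n : ℕ => ENNReal.ofReal ((n : ℝ) ^ ((d : ℝ) / 2) * F d r n)) l := by
  rcases hr.eq_or_lt with rfl | hr
  · rw [sub_self, zero_pow (by omega)]; simp
  have hd0 : (0 : ℝ) < d := by exact_mod_cast hd
  refine le_of_forall_lt_imp_le_of_dense fun x hx => ?_
  have hx1 : x ≠ ⊤ := ne_top_of_lt hx
  rw [← ENNReal.ofReal_toReal hx1] at hx ⊢
  rw [ENNReal.ofReal_lt_ofReal_iff_of_nonneg ENNReal.toReal_nonneg] at hx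
  refine le_liminf_of_le (by isBoundedDefault) (Eventually.filter_mono hl ?_)
  have hx2 := lower_main2 hd hr (t := x.toReal) (hx.trans_eq (by
    have e0 : √((1 / d : ℝ) ^ d) = √(1 / d) ^ d := by
      rw [sqrt_eq_iff_mul_self_eq_of_pos (by positivity), ← mul_pow, mul_self_sqrt (by positivity)]
    have e1 : √((d : ℝ) / 2) = √(2 / π) * √π / 2 / √(1 / d) := by
      rw [← sqrt_mul (by positivity), eq_div_iff (by positivity), ← sqrt_mul (by positivity),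
        sqrt_eq_iff_mul_self_eq_of_pos (by positivity), div_mul_div_comm,
        mul_self_sqrt (by positivity)]
      field_simp
    rw [vol_eq hd zero_le_one, ← sqrt_pow_eq (by positivity), e0, e1, div_pow, div_pow, mul_pow]
    ring))
  filter_upwards [hx2, eventually_ge_atTop 1] with n hn hn1
  refine ENNReal.ofReal_le_ofReal ?_
  have hne : Nonempty (Fin n → Metric.sphere (0 : EuclideanSpace ℝ (Fin d)) 1) :=
    ⟨fun _ => ⟨EuclideanSpace.single ⟨0, hd⟩ 1, by simp⟩⟩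
  have hn0 : 0 < √(n : ℝ) ^ d := pow_pos (sqrt_pos.2 (by exact_mod_cast hn1)) d
  rw [rpow_half, ← div_le_iff₀' hn0]
  refine le_ciInf fun V => ?_
  rw [div_le_iff₀' hn0]
  exact hn _ fun i => mem_sphere_zero_iff_norm.1 (V i).2

lemma upper {d : ℕ} (hd : 1 ≤ d) {r : ℝ} (hr : √d ≤ r) (P : Set ℕ) (c : ℕ) (hc : c ≤ 1)
    (hP : ∀ k, d * (2 * k + 1) + c ∈ P) :
    liminf (fun n : ℕ => ENNReal.ofReal ((n : ℝ) ^ ((d : ℝ) / 2) * F d r n)) (atTop ⊓ principal P) ≤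
      ENNReal.ofReal (((d : ℝ) / 2) ^ ((d : ℝ) / 2) * (r + √d) ^ d / Gamma (d / 2 + 1)) := by
  refine le_of_forall_gt_imp_ge_of_dense fun x hx => ?_
  have h0 : Tendsto (fun k : ℕ => 1 / (k : ℝ)) atTop (𝓝 0) := tendsto_one_div_atTop_nhds_zero_nat
  have h1 := (((h0.const_add 1).const_mul (d / (2 * π) : ℝ)).sqrt.pow d).mul_const
    (volume (Metric.closedBall (0 : EuclideanSpace ℝ (Fin d)) (r + √d))).toReal
  have e0 : √(d / (2 * π) * (1 + 0)) ^ d *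
      (volume (Metric.closedBall (0 : EuclideanSpace ℝ (Fin d)) (r + √d))).toReal =
      ((d : ℝ) / 2) ^ ((d : ℝ) / 2) * (r + √d) ^ d / Gamma (d / 2 + 1) := by
    have e1 : √((d : ℝ) / 2) = √(d / (2 * π) * (1 + 0)) * √π := by
      rw [← sqrt_mul (by positivity)]; congr 1; field_simp; norm_num
    rw [vol_eq hd (add_nonneg ((sqrt_nonneg _).trans hr) (sqrt_nonneg _)),
      ← sqrt_pow_eq (by positivity : (0 : ℝ) ≤ d / 2), e1, mul_pow]
    ring
  rw [e0] at h1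
  obtain ⟨k0, hk0⟩ := eventually_atTop.1
    (((ENNReal.continuous_ofReal.tendsto _).comp h1).eventually (gt_mem_nhds hx))
  refine liminf_le_of_frequently_le ?_ (by isBoundedDefault)
  rw [frequently_inf_principal, frequently_atTop]
  intro n0
  obtain ⟨k, hk⟩ : ∃ k, k = n0 + k0 := ⟨_, rfl⟩
  have e : ∑ l : Fin d, (2 * k + 1 + if l = ⟨0, hd⟩ then c else 0) = d * (2 * k + 1) + c := by
    simp [Finset.sum_add_distrib, mul_add]
  refine ⟨d * (2 * k + 1) + c, by nlinarith, hP k, le_trans (ENNReal.ofReal_le_ofReal ?_)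
    (hk0 (2 * k + 1) (by omega)).le⟩
  rw [rpow_half, ← e]
  exact orth_F2 (by omega) _ r (fun l => by omega) fun l => by split_ifs <;> omega

theorem result : ∀ (d : ℕ) (r : ℝ), 1 ≤ d → √d ≤ r →
    (ENNReal.ofReal (((d : ℝ) / 2) ^ ((d : ℝ) / 2) * (r - √d) ^ d / Gamma (d / 2 + 1)) ≤ f0 d r ∧
      f0 d r ≤
        ENNReal.ofReal (((d : ℝ) / 2) ^ ((d : ℝ) / 2) * (r + √d) ^ d / Gamma (d / 2 + 1))) ∧
    (ENNReal.ofReal (((d : ℝ) / 2) ^ ((d : ℝ) / 2) * (r - √d) ^ d / Gamma (d / 2 + 1)) ≤ f1 d r ∧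
      f1 d r ≤
        ENNReal.ofReal (((d : ℝ) / 2) ^ ((d : ℝ) / 2) * (r + √d) ^ d / Gamma (d / 2 + 1))) :=
  fun d r hd hr =>
  ⟨⟨lower hd hr _ inf_le_left, upper hd hr _ 0 (by norm_num) fun k => by
      change _ % 2 = d % 2
      rw [mul_add, mul_left_comm]; omega⟩,
    lower hd hr _ inf_le_left, upper hd hr _ 1 le_rfl fun k => by
      change _ % 2 ≠ d % 2
      rw [mul_add, mul_left_comm]; omega⟩

end Pool.Agent.Results.MP_3b7d13_co.LargeRadius
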