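import Pool.Agent.Lib.MP_3b7d13_co.Lower
import Pool.Agent.Lib.MP_3b7d13_co.Upper

/-! The order of magnitude of `f^1_{2,1+δ}` as `δ → 0` is `√δ`. -/

namespace Pool.Agent.Results.MP_3b7d13_co.SqrtDelta

open Pool.Agent.Lib.MP_3b7d13_co Filter

lemma prob_nonneg {d n : ℕ} (v : Fin n → EuclideanSpace ℝ (Fin d)) (r : ℝ) : 0 ≤ prob v r := by
  unfold prob; positivity

lemma lower {δ : ℝ} (hδ : 0 < δ) (hδ1 : δ ≤ 1) :
    ENNReal.ofReal (c0 / 2 * √δ) ≤ f1 2 (1 + δ) := by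
  unfold f1
  refine le_liminf_of_le (by isBoundedDefault) ?_
  rw [eventually_inf_principal]
  refine Eventually.of_forall fun n hn => ENNReal.ofReal_le_ofReal ?_
  obtain ⟨m, rfl⟩ : ∃ m, n = 2 * m + 1 := ⟨n / 2, by
    have : n % 2 ≠ 2 % 2 := hn
    omega⟩
  have hne : Nonempty (Fin (2 * m + 1) → Metric.sphere (0 : EuclideanSpace ℝ (Fin 2)) 1) :=
    ⟨fun _ => ⟨EuclideanSpace.single 0 1, by simp⟩⟩
  have h1 : c0 / 2 * √δ / (2 * m + 1) ≤ F 2 (1 + δ) (2 * m + 1) :=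
    le_ciInf fun V => prob_lower m _ (fun i => by simpa using (V i).2) hδ hδ1
  rw [div_le_iff₀ (by positivity)] at h1
  have e : ((2 : ℕ) : ℝ) / 2 = 1 := by norm_num
  rw [e, Real.rpow_one]
  push_cast
  linarith

lemma upper {δ : ℝ} (hδ : 0 < δ) (hδ1 : δ ≤ 1 / 4) :
    f1 2 (1 + δ) ≤ ENNReal.ofReal (112 * √δ) := by
  have hs0 : 0 < √δ := Real.sqrt_pos.2 hδ
  have hs2 : √δ ^ 2 = δ := Real.sq_sqrt hδ.le
  have hs1 : √δ ≤ 1 / 2 := by
    by_contra h; push Not at h; nlinarith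
  obtain ⟨k, hk⟩ : ∃ k : ℕ, k = ⌊1 / (2 * √δ)⌋₊ := ⟨_, rfl⟩
  have hk1 : (k : ℝ) ≤ 1 / (2 * √δ) := by rw [hk]; exact Nat.floor_le (by positivity)
  have hk2 : 1 / (2 * √δ) < k + 1 := by rw [hk]; exact Nat.lt_floor_add_one _
  rw [le_div_iff₀ (by positivity)] at hk1
  rw [div_lt_iff₀ (by positivity)] at hk2
  have hk3 : 1 ≤ k := by
    rcases Nat.eq_zero_or_pos k with h | h
    · rw [h] at hk2; simp at hk2; linarith
    · exact h
  obtain ⟨N, hN⟩ : ∃ N : ℕ, N = 2 * k + 1 := ⟨_, rfl⟩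
  have hNr : (N : ℝ) = 2 * k + 1 := by rw [hN]; push_cast; ring
  have hN1 : N * √δ ≤ 3 / 2 := by rw [hNr]; nlinarith
  have hN2 : 1 / 2 ≤ N * √δ := by rw [hNr]; nlinarith
  have hN3 : (N : ℝ) ^ 2 * δ ≤ 9 / 4 := by
    have := pow_le_pow_left₀ (by positivity) hN1 2
    rw [mul_pow, hs2] at this
    linarith
  have hN0 : (0 : ℝ) < N := by rw [hNr]; positivity
  unfold f1
  refine liminf_le_of_frequently_le ?_ (by isBoundedDefault)
  rw [frequently_inf_principal, frequently_atTop]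
  intro n0
  obtain ⟨j, hj⟩ : ∃ j : ℕ, j = n0 + N ^ 2 + 1 := ⟨_, rfl⟩
  refine ⟨(2 * j + 1) + (2 * j + 2 * j), by omega, by
    change _ % 2 ≠ 2 % 2
    omega, ENNReal.ofReal_le_ofReal ?_⟩
  have hs : (1 / (N : ℝ)) ^ 2 ≤ 1 := by
    rw [div_pow, div_le_one (by positivity), hNr]
    have : (0 : ℝ) ≤ k := Nat.cast_nonneg k
    nlinarith
  have h1 : F 2 (1 + δ) ((2 * j + 1) + (2 * j + 2 * j)) ≤
      prob (fun i => dir (2 * j + 1) (2 * j) (2 * j) (1 / N) ((blk _ _ _).symm i)) (1 + δ) :=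
    ciInf_le (f := fun V : Fin ((2 * j + 1) + (2 * j + 2 * j)) →
      Metric.sphere (0 : EuclideanSpace ℝ (Fin 2)) 1 => prob (fun i => (V i).1) (1 + δ))
      ⟨0, by rintro _ ⟨V, rfl⟩; exact prob_nonneg _ _⟩
      (fun i => ⟨dir (2 * j + 1) (2 * j) (2 * j) (1 / N) ((blk _ _ _).symm i),
        mem_sphere_zero_iff_norm.2 (dir_norm _ _ _ hs _)⟩)
  have h2 := prob_upper (2 * j + 1) (2 * j) (2 * j) N ⟨j, rfl⟩ (even_two_mul j) (even_two_mul j)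
    ⟨k, hN⟩ hδ hδ1 (by omega) hN3
  have h3 := choose_half_sq_le (2 * j)
  have h4 : N * (2 * j + 1).choose ((2 * j + 1) / 2) ≤ 2 ^ (2 * j + 1) := by
    have a := choose_half_sq_le (2 * j + 1)
    have b : (N * (2 * j + 1).choose ((2 * j + 1) / 2)) ^ 2 ≤ (2 ^ (2 * j + 1)) ^ 2 := by
      rw [← pow_mul, mul_comm (2 * j + 1) 2, pow_mul, mul_pow, mul_comm]
      exact (Nat.mul_le_mul_left _ (by omega)).trans a
    exact (Nat.pow_le_pow_iff_left two_ne_zero).1 b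
  unfold prob at h1
  generalize (Finset.univ.filter fun ε : Fin ((2 * j + 1) + (2 * j + 2 * j)) → Bool =>
      ‖∑ i, sgn (ε i) • dir (2 * j + 1) (2 * j) (2 * j) (1 / N) ((blk _ _ _).symm i)‖ ≤
        1 + δ).card = M at h1 h2
  have h5 : N * M * (2 * j) ≤ 16 * 2 ^ ((2 * j + 1) + (2 * j + 2 * j)) := by
    calc N * M * (2 * j) ≤ 4 * ((2 * j).choose (2 * j / 2) * (2 * j).choose (2 * j / 2) *
          (2 * 2 ^ (2 * j + 1) + 2 * 2 ^ (2 * j + 1))) * (2 * j) :=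
          Nat.mul_le_mul_right _ (h2.trans (by gcongr))
      _ = 16 * 2 ^ (2 * j + 1) * ((2 * j).choose (2 * j / 2) ^ 2 * (2 * j)) := by ring
      _ ≤ 16 * 2 ^ (2 * j + 1) * 4 ^ (2 * j) := Nat.mul_le_mul_left _ h3
      _ = _ := by
          rw [pow_add 2 (2 * j + 1), ← two_mul (2 * j), pow_mul 2 2 (2 * j)]; ring
  have h6 : (N : ℝ) * M * (2 * j) ≤ 16 * 2 ^ ((2 * j + 1) + (2 * j + 2 * j)) := by
    exact_mod_cast h5
  have hj1 : (1 : ℝ) ≤ j := by exact_mod_cast (by omega : 1 ≤ j)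
  have h7 : (M : ℝ) / 2 ^ ((2 * j + 1) + (2 * j + 2 * j)) ≤ 16 / (N * (2 * j)) := by
    rw [div_le_div_iff₀ (by positivity) (by positivity)]
    linarith
  have e : ((2 : ℕ) : ℝ) / 2 = 1 := by norm_num
  rw [e, Real.rpow_one]
  have h8 : (((2 * j + 1) + (2 * j + 2 * j) : ℕ) : ℝ) ≤ 7 * j := by push_cast; linarith
  calc _ ≤ (((2 * j + 1) + (2 * j + 2 * j) : ℕ) : ℝ) * (16 / (N * (2 * j))) :=
        mul_le_mul_of_nonneg_left (h1.trans h7) (Nat.cast_nonneg _)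
    _ ≤ 7 * j * (16 / (N * (2 * j))) := mul_le_mul_of_nonneg_right h8 (by positivity)
    _ = 56 / N := by field_simp; norm_num
    _ ≤ 112 * √δ := by rw [div_le_iff₀ hN0]; linarith

theorem result : ∃ c C : ℝ, 0 < c ∧ ∀ δ : ℝ, 0 < δ → δ ≤ 1 / 4 →
    ENNReal.ofReal (c * √δ) ≤ f1 2 (1 + δ) ∧ f1 2 (1 + δ) ≤ ENNReal.ofReal (C * √δ) :=
  ⟨c0 / 2, 112, by unfold c0; positivity, fun _ h1 h2 => ⟨lower h1 (by linarith), upper h1 h2⟩⟩

end Pool.Agent.Results.MP_3b7d13_co.SqrtDelta
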